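import Mathlib

set_option autoImplicit false

/-!
Homological preliminaries for MP_0c67ff_ag : projective dimension of ideals and quotients.
-/

open CategoryTheory Abelian

namespace Pool.Agent.Lib.MP_0c67ff_ag

variable {R : Type} [CommRing R]

/-- `PD R M n` : projective dimension of the module `M` is `< n`. -/
abbrev PD (R : Type) [CommRing R] (M : Type) [AddCommGroup M] [Module R M] (n : ℕ) : Prop :=
  HasProjectiveDimensionLT (ModuleCat.of R M) n

section Sequences

variable {M N L : Type} [AddCommGroup M] [AddCommGroup N] [AddCommGroup L]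
  [Module R M] [Module R N] [Module R L]

lemma PD.mono {n m : ℕ} (h : PD R M n) (hnm : n ≤ m) : PD R M m :=
  have := h
  hasProjectiveDimensionLT_of_ge (ModuleCat.of R M) n m hnm

lemma shortExact_of {f : M →ₗ[R] N} {g : N →ₗ[R] L} (he : Function.Exact f g)
    (hi : Function.Injective f) (hs : Function.Surjective g) :
    (ModuleCat.shortComplexOfCompEqZero f g he.linearMap_comp_eq_zero).ShortExact :=
  ModuleCat.shortComplex_shortExact _ he hi hs

lemma PD.left {f : M →ₗ[R] N} {g : N →ₗ[R] L} (he : Function.Exact f g)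
    (hi : Function.Injective f) (hs : Function.Surjective g) {n : ℕ}
    (h₂ : PD R N n) (h₃ : PD R L (n + 1)) : PD R M n :=
  (shortExact_of he hi hs).hasProjectiveDimensionLT_X₁ n h₂ h₃

lemma PD.mid {f : M →ₗ[R] N} {g : N →ₗ[R] L} (he : Function.Exact f g)
    (hi : Function.Injective f) (hs : Function.Surjective g) {n : ℕ}
    (h₁ : PD R M n) (h₃ : PD R L n) : PD R N n :=
  (shortExact_of he hi hs).hasProjectiveDimensionLT_X₂ n h₁ h₃

lemma PD.right {f : M →ₗ[R] N} {g : N →ₗ[R] L} (he : Function.Exact f g)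
    (hi : Function.Injective f) (hs : Function.Surjective g) {n : ℕ}
    (h₁ : PD R M n) (h₂ : PD R N (n + 1)) : PD R L (n + 1) :=
  (shortExact_of he hi hs).hasProjectiveDimensionLT_X₃ n h₁ h₂

lemma PD.of_equiv (e : M ≃ₗ[R] N) {n : ℕ} (h : PD R M n) : PD R N n :=
  have := h
  hasProjectiveDimensionLT_of_iso e.toModuleIso n

lemma PD.of_projective [Module.Projective R M] {n : ℕ} (hn : 1 ≤ n) : PD R M n := by
  have : Projective (ModuleCat.of R M) :=
    (IsProjective.iff_projective (R := R) M).mp inferInstance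
  have h : PD R M 1 := inferInstanceAs (HasProjectiveDimensionLT (ModuleCat.of R M) 1)
  exact h.mono hn

lemma PD.prod {n : ℕ} (h₁ : PD R M n) (h₂ : PD R N n) : PD R (M × N) n := by
  refine PD.mid (f := LinearMap.inl R M N) (g := LinearMap.snd R M N) ?_ ?_ ?_ h₁ h₂
  · exact Function.Exact.inl_snd
  · exact LinearMap.inl_injective
  · exact LinearMap.snd_surjective

lemma PD.of_prod_left {n : ℕ} (h : PD R (M × N) n) : PD R M n := by
  have := h
  refine Retract.hasProjectiveDimensionLT (Y := ModuleCat.of R (M × N)) ?_ n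
  refine ⟨ModuleCat.ofHom (LinearMap.inl R M N), ModuleCat.ofHom (LinearMap.fst R M N), ?_⟩
  ext x
  simp

end Sequences

section Ideals

/-- The basic exact sequence `0 → P → I × R → I' → 0` with `P = (I : v)` and `I' = I + (v)`. -/
lemma ideal_seq (I P I' : Ideal R) (v : R) (hP : ∀ r, r ∈ P ↔ r * v ∈ I)
    (hI' : I' = I ⊔ Ideal.span {v}) :
    ∃ (f : P →ₗ[R] (I × R)) (g : (I × R) →ₗ[R] I'), Function.Exact f g ∧
      Function.Injective f ∧ Function.Surjective g := by
  have hI : I ≤ I' := by rw [hI']; exact le_sup_left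
  have hv : v ∈ I' := by
    rw [hI']; exact Ideal.mem_sup_right (Ideal.mem_span_singleton_self v)
  let f : P →ₗ[R] (I × R) :=
    { toFun := fun p => (⟨(p : R) * v, (hP _).1 p.2⟩, -(p : R))
      map_add' := by
        intro a b
        refine Prod.ext (Subtype.ext ?_) ?_
        · simp [add_mul]
        · simp; ring
      map_smul' := by
        intro a b
        refine Prod.ext (Subtype.ext ?_) ?_
        · simp [mul_assoc]
        · simp }
  let g : (I × R) →ₗ[R] I' :=
    { toFun := fun q => ⟨(q.1 : R) + q.2 * v,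
        I'.add_mem (hI q.1.2) (I'.mul_mem_left _ hv)⟩
      map_add' := by
        intro a b
        refine Subtype.ext ?_
        simp; ring
      map_smul' := by
        intro a b
        refine Subtype.ext ?_
        simp; ring }
  refine ⟨f, g, ?_, ?_, ?_⟩
  · rintro ⟨a, r⟩
    constructor
    · intro h
      have h' : (a : R) + r * v = 0 := congrArg Subtype.val h
      have hr : -r ∈ P := by
        rw [hP]
        have : -r * v = a := by linear_combination -h'
        rw [this]; exact a.2
      refine ⟨⟨-r, hr⟩, Prod.ext (Subtype.ext ?_) ?_⟩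
      · change -r * v = a
        linear_combination -h'
      · change - -r = r
        ring
    · rintro ⟨p, hp⟩
      rw [← hp]
      refine Subtype.ext ?_
      change (p : R) * v + (-(p : R)) * v = 0
      ring
  · intro p q h
    have := congrArg Prod.snd h
    change -(p : R) = -(q : R) at this
    exact Subtype.ext (neg_injective this)
  · rintro ⟨x, hx⟩
    rw [hI', Submodule.mem_sup] at hx
    obtain ⟨a, ha, b, hb, rfl⟩ := hx
    obtain ⟨r, rfl⟩ := Ideal.mem_span_singleton'.1 hb
    exact ⟨(⟨a, ha⟩, r), Subtype.ext rfl⟩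

lemma PD_ideal_step (I P I' : Ideal R) (v : R) (hP : ∀ r, r ∈ P ↔ r * v ∈ I)
    (hI' : I' = I ⊔ Ideal.span {v}) {n : ℕ} (h1 : PD R P n) (h2 : PD R I' n) : PD R I n := by
  obtain ⟨f, g, he, hi, hs⟩ := ideal_seq I P I' v hP hI'
  exact (PD.mid he hi hs h1 h2).of_prod_left

lemma PD_ideal_colon (I P I' : Ideal R) (v : R) (hP : ∀ r, r ∈ P ↔ r * v ∈ I)
    (hI' : I' = I ⊔ Ideal.span {v}) {n : ℕ} (hn : 1 ≤ n) (h1 : PD R I n) (h2 : PD R I' (n + 1)) :
    PD R P n := by
  obtain ⟨f, g, he, hi, hs⟩ := ideal_seq I P I' v hP hI'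
  exact PD.left he hi hs (h1.prod (PD.of_projective hn)) h2

lemma PD_ideal_sup (I P I' : Ideal R) (v : R) (hP : ∀ r, r ∈ P ↔ r * v ∈ I)
    (hI' : I' = I ⊔ Ideal.span {v}) {n : ℕ} (h1 : PD R P n) (h2 : PD R I (n + 1)) :
    PD R I' (n + 1) := by
  obtain ⟨f, g, he, hi, hs⟩ := ideal_seq I P I' v hP hI'
  exact PD.right he hi hs h1 (h2.prod (PD.of_projective (by omega)))

end Ideals

end Pool.Agent.Lib.MP_0c67ff_ag
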