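import Mathlib
import Pool.Agent.Lib.MP_0c67ff_ag.Chain

set_option autoImplicit false

/-!
Powers of the squeezed monomial ideals.
-/

open CategoryTheory Abelian MvPolynomial

namespace Pool.Agent.Lib.MP_0c67ff_ag

open scoped Pointwise in
lemma mI_mul (k : Type) [Field k] {σ : Type} (S T : Set (σ →₀ ℕ)) :
    mI k S * mI k T = mI k (S + T) := by
  unfold mI
  rw [Ideal.span_mul_span']
  congr 1
  ext p
  constructor
  · rintro ⟨_, ⟨e, he, rfl⟩, _, ⟨f, hf, rfl⟩, rfl⟩
    exact ⟨e + f, ⟨e, he, f, hf, rfl⟩, by simp [monomial_mul]⟩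
  · rintro ⟨_, ⟨e, he, f, hf, rfl⟩, rfl⟩
    exact ⟨_, ⟨e, he, rfl⟩, _, ⟨f, hf, rfl⟩, by simp [monomial_mul]⟩

/-- Iterated sumsets. -/
def iter (A : Set ℕ) : ℕ → Set ℕ
  | 0 => {0}
  | s + 1 => {w | ∃ u ∈ iter A s, ∃ a ∈ A, w = u + a}

lemma iter_one (A : Set ℕ) : iter A 1 = A := by
  ext w
  constructor
  · rintro ⟨u, hu, a, ha, rfl⟩
    have hu' : u = 0 := hu
    rw [hu', zero_add]; exact ha
  · intro h
    exact ⟨0, rfl, w, h, (zero_add w).symm⟩

lemma add_mem_iter {A : Set ℕ} {s : ℕ} {u a : ℕ} (hu : u ∈ iter A s) (ha : a ∈ A) :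
    u + a ∈ iter A (s + 1) := ⟨u, hu, a, ha, rfl⟩

lemma iter_mono {A : Set ℕ} (h0 : 0 ∈ A) {s : ℕ} {u : ℕ} (hu : u ∈ iter A s) :
    u ∈ iter A (s + 1) := ⟨u, hu, 0, h0, rfl⟩

lemma iter_mono' {A : Set ℕ} (h0 : 0 ∈ A) {s t : ℕ} (hst : s ≤ t) {u : ℕ} (hu : u ∈ iter A s) :
    u ∈ iter A t := by
  induction t, hst using Nat.le_induction with
  | base => exact hu
  | succ t _ ih => exact iter_mono h0 ih

lemma mul_mem_iter {A : Set ℕ} {a : ℕ} (ha : a ∈ A) (s : ℕ) : s * a ∈ iter A s := by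
  induction s with
  | zero => simp [iter]
  | succ s ih => rw [Nat.succ_mul]; exact add_mem_iter ih ha

lemma iter_le {A : Set ℕ} {D : ℕ} (hA : ∀ a ∈ A, a ≤ D) {s : ℕ} {u : ℕ} (hu : u ∈ iter A s) :
    u ≤ s * D := by
  induction s generalizing u with
  | zero =>
    have : u = 0 := hu
    simp [this]
  | succ s ih =>
    obtain ⟨v, hv, a, ha, rfl⟩ := hu
    have h1 := ih hv
    have h2 := hA a ha
    rw [Nat.succ_mul]; omega

/-- The indices `j` whose variable is exposed at position `w`. -/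
def Zs {ι : Type} (A : Set ℕ) (b : ι → ℕ) (s : ℕ) (w : ℕ) : Set ι :=
  {j | ∃ u ∈ iter A s, w = b j + u}

namespace VarSetup

variable {σ ι : Type} (V : VarSetup σ ι) {A : Set ℕ} {b : ι → ℕ} {D : ℕ}

/-- The exponent set of the `(s+1)`-st power. -/
def W (A : Set ℕ) (b : ι → ℕ) (D s : ℕ) : Set (σ →₀ ℕ) :=
  V.U ((s + 1) * D) (iter A (s + 1)) (Zs A b s)

open scoped Pointwise in
lemma W_add (h0 : 0 ∈ A) (hD : D ∈ A) (hA : ∀ a ∈ A, a ≤ D)
    (hbb : ∀ i j, b i + b j ∈ A) (hDpos : 1 ≤ D) (s : ℕ) :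
    V.W A b D s + V.W A b D 0 = V.W A b D (s + 1) := by
  have hmul : (s + 1 + 1) * D = (s + 1) * D + D := by ring
  have hb : ∀ j, b j ≤ D := fun j => by
    have := hA _ (hbb j j); omega
  ext e
  constructor
  · rintro ⟨e', he', e'', he'', rfl⟩
    have ex : (e' + e'') V.x = e' V.x + e'' V.x := rfl
    have ey : (e' + e'') V.y = e' V.y + e'' V.y := rfl
    have ez : ∀ j, (e' + e'') (V.z j) = e' (V.z j) + e'' (V.z j) := fun j => rfl
    unfold W at he' he'' ⊢
    change _ ∈ V.U _ _ _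
    simp only [U, Set.mem_ofPred_eq] at he' he'' ⊢
    rw [ex, ey, hmul]
    simp only [zero_add, one_mul] at he''
    rw [iter_one] at he''
    rcases he' with he' | ⟨he', h'⟩
    · left; omega
    · rcases he'' with he'' | ⟨he'', h''⟩
      · left; omega
      · right
        refine ⟨by omega, ?_⟩
        rcases h'' with h'' | ⟨j, ⟨u, hu, hju⟩, hj1⟩
        · rcases h' with h' | ⟨i, ⟨u, hu, hiu⟩, hi1⟩
          · left; exact add_mem_iter h' h''
          · right
            refine ⟨i, ⟨u + e'' V.y, add_mem_iter hu h'', by omega⟩, ?_⟩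
            rw [ez]; omega
        · have hu0 : u = 0 := hu
          subst hu0
          rcases h' with h' | ⟨i, ⟨u', hu', hiu⟩, hi1⟩
          · right
            refine ⟨j, ⟨e' V.y, h', by omega⟩, ?_⟩
            rw [ez]; omega
          · left
            have h1 := add_mem_iter hu' (hbb i j)
            have h2 := iter_mono h0 h1
            have h3 : e' V.y + e'' V.y = u' + (b i + b j) := by omega
            rw [h3]; exact h2
  · intro he
    unfold W at he
    simp only [U, Set.mem_ofPred_eq] at he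
    rw [hmul] at he
    -- decomposition with first part `v ((s+1) D) w'`
    have key : ∀ w', w' ∈ iter A (s + 1) → V.v ((s + 1) * D) w' ≤ e →
        (e - V.v ((s + 1) * D) w' ∈ V.W A b D 0) →
        e ∈ V.W A b D s + V.W A b D 0 := by
      intro w' hw' hle h
      refine ⟨V.v ((s + 1) * D) w', ?_, _, h, ?_⟩
      · refine Or.inr ⟨?_, Or.inl ?_⟩
        · rw [v_x, v_y]
          have := iter_le hA hw'
          omega
        · rw [v_y]; exact hw'
      · exact add_tsub_cancel_of_le hle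
    have sx : ∀ w', (e - V.v ((s + 1) * D) w') V.x = e V.x - ((s + 1) * D - w') := by
      intro w'; simp [v_x]
    have sy : ∀ w', (e - V.v ((s + 1) * D) w') V.y = e V.y - w' := by
      intro w'; simp [v_y]
    have sz : ∀ w' j, (e - V.v ((s + 1) * D) w') (V.z j) = e (V.z j) := by
      intro w' j; simp [v_z]
    rcases he with he | ⟨he, he' | ⟨j, ⟨u, hu, hju⟩, hj1⟩⟩
    · -- large degree
      obtain ⟨q, hq, hq1, hq2⟩ : ∃ q ≤ s + 1, q * D ≤ e V.y ∧ (s + 1) * D - q * D ≤ e V.x := by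
        by_cases hle : (s + 1) * D ≤ e V.y
        · exact ⟨s + 1, le_rfl, hle, by simp⟩
        · refine ⟨e V.y / D, ?_, Nat.div_mul_le_self _ _, ?_⟩
          · have := Nat.div_le_div_right (c := D) (le_of_lt (not_le.1 hle))
            rwa [Nat.mul_div_cancel _ hDpos] at this
          · have h1 : e V.y < (e V.y / D + 1) * D := by
              rw [mul_comm]; exact Nat.lt_mul_div_succ _ hDpos
            rw [add_mul, one_mul] at h1
            omega
      have hqm : q * D ∈ iter A (s + 1) := iter_mono' h0 hq (mul_mem_iter hD q)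
      have hqD : q * D ≤ (s + 1) * D := Nat.mul_le_mul_right _ hq
      refine key (q * D) hqm ?_ ?_
      · rw [v_le_iff]; exact ⟨hq2, hq1⟩
      · left
        rw [sx, sy]
        simp only [zero_add, one_mul]
        omega
    · obtain ⟨w', hw', a, ha, hwa⟩ := he'
      have h1 := iter_le hA hw'
      have h2 := hA a ha
      refine key w' hw' ?_ ?_
      · rw [v_le_iff]; omega
      · right
        rw [sx, sy]
        refine ⟨by omega, Or.inl ?_⟩
        rw [iter_one]
        have : e V.y - w' = a := by omega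
        rw [this]; exact ha
    · have h1 := iter_le hA hu
      have h2 := hb j
      refine key u hu ?_ ?_
      · rw [v_le_iff]; omega
      · right
        rw [sx, sy]
        refine ⟨by omega, Or.inr ⟨j, ⟨0, rfl, by omega⟩, ?_⟩⟩
        rw [sz]; exact hj1

theorem mI_W_pow (k : Type) [Field k] (h0 : 0 ∈ A) (hD : D ∈ A) (hA : ∀ a ∈ A, a ≤ D)
    (hbb : ∀ i j, b i + b j ∈ A) (hDpos : 1 ≤ D) (s : ℕ) :
    mI k (V.W A b D 0) ^ (s + 1) = mI k (V.W A b D s) := by
  induction s with
  | zero => simp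
  | succ s ih => rw [pow_succ, ih, mI_mul, V.W_add h0 hD hA hbb hDpos]

end VarSetup

end Pool.Agent.Lib.MP_0c67ff_ag
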