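import Mathlib
import Pool.Agent.Lib.MP_0c67ff_ag.Powers

set_option autoImplicit false

/-!
The combinatorial construction of the position set and of the exposed positions.
-/

open Finset

namespace Pool.Agent.Lib.MP_0c67ff_ag

lemma exists_code (ι : Type) [Fintype ι] (E : ℕ) (hE : 1 ≤ E) :
    ∃ (c : ι → ℕ) (C : ℕ), 1 ≤ C ∧
      (∀ u : ι → ℕ, (∀ j, u j < E) → ∑ j, u j * c j < C) ∧
      (∀ u v : ι → ℕ, (∀ j, u j < E) → (∀ j, v j < E) →
        ∑ j, u j * c j = ∑ j, v j * c j → u = v) := by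
  classical
  let e : ι ≃ Fin (Fintype.card ι) := Fintype.equivFin ι
  have key : ∀ u : ι → ℕ, ∀ hu : (∀ j, u j < E), ∑ j, u j * E ^ (e j : ℕ) =
      ((finFunctionFinEquiv (fun i : Fin (Fintype.card ι) => (⟨u (e.symm i), hu _⟩ : Fin E))) :
        ℕ) := by
    intro u hu
    rw [finFunctionFinEquiv_apply]
    rw [← Equiv.sum_comp e]
    simp
  refine ⟨fun j => E ^ (e j : ℕ), E ^ (Fintype.card ι), Nat.one_le_pow _ _ hE, ?_, ?_⟩
  · intro u hu
    rw [key u hu]
    exact Fin.is_lt _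
  · intro u v hu hv h
    rw [key u hu, key v hv] at h
    have h' := finFunctionFinEquiv.injective (Fin.ext h)
    funext j
    have := congrFun h' (e j)
    simpa using this

/-- All the numerical data of the construction. -/
structure Data (ι : Type) [Fintype ι] where
  N : ℕ
  lev : ι → ℕ
  lev_le : ∀ j, lev j ≤ N
  lev_surj : ∀ n ≤ N, ∃ j, lev j = n
  c : ι → ℕ
  C : ℕ
  C_pos : 1 ≤ C
  lt_C : ∀ u : ι → ℕ, (∀ j, u j < 8 * N + 16) → ∑ j, u j * c j < C
  inj : ∀ u v : ι → ℕ, (∀ j, u j < 8 * N + 16) → (∀ j, v j < 8 * N + 16) →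
        ∑ j, u j * c j = ∑ j, v j * c j → u = v

namespace Data

variable {ι : Type} [Fintype ι] (P : Data ι)

/-- Encoding of a size and a digit vector. -/
def enc (s : ℕ) (u : ι → ℕ) : ℕ := s * P.C + ∑ j, u j * P.c j

lemma enc_add (s s' : ℕ) (u u' : ι → ℕ) :
    P.enc s u + P.enc s' u' = P.enc (s + s') (fun j => u j + u' j) := by
  unfold enc
  simp only [add_mul, Finset.sum_add_distrib]
  ring

lemma le_enc (s : ℕ) (u : ι → ℕ) : s * P.C ≤ P.enc s u := Nat.le_add_right _ _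

lemma enc_lt (s : ℕ) (u : ι → ℕ) (hu : ∀ j, u j < 8 * P.N + 16) :
    P.enc s u < (s + 1) * P.C := by
  unfold enc
  have := P.lt_C u hu
  rw [add_mul, one_mul]
  omega

lemma size_lt_of {s t : ℕ} {u : ι → ℕ} (h : P.enc s u < t * P.C) : s < t := by
  have h1 := (P.le_enc s u).trans_lt h
  exact lt_of_mul_lt_mul_right h1 (Nat.zero_le _)

lemma enc_inj {s s' : ℕ} {u u' : ι → ℕ} (hu : ∀ j, u j < 8 * P.N + 16)
    (hu' : ∀ j, u' j < 8 * P.N + 16) (h : P.enc s u = P.enc s' u') : s = s' ∧ u = u' := by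
  have h1 : s < s' + 1 := P.size_lt_of (by rw [h]; exact P.enc_lt s' u' hu')
  have h2 : s' < s + 1 := P.size_lt_of (by rw [← h]; exact P.enc_lt s u hu)
  have h3 : s = s' := by omega
  subst h3
  refine ⟨rfl, P.inj u u' hu hu' ?_⟩
  unfold enc at h
  omega

open Classical in
/-- Indicator digit vector of a level. -/
noncomputable def ind (q n : ℕ) : ι → ℕ := fun j => if P.lev j = n then q else 0

open Classical in
/-- Indicator digit vector of an index. -/
noncomputable def one (_P : Data ι) (q : ℕ) (i : ι) : ι → ℕ := fun j => if j = i then q else 0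

/-- The big size. -/
def L : ℕ := 2 * P.N + 4

/-- The digit used for levels. -/
def q : ℕ := 2 * P.N + 5

/-- Target positions. -/
noncomputable def w (n : ℕ) : ℕ := P.enc P.L (P.ind P.q n)

/-- The elements completing the targets. -/
noncomputable def sg (n : ℕ) : ℕ := P.enc (P.L - (n + 1)) (P.ind P.q n)

/-- Small generic steps. -/
noncomputable def rho (j : ι) : ℕ := P.enc 1 (P.one 1 j)

/-- Positions carrying variables. -/
noncomputable def b (j : ι) : ℕ :=
  P.enc (P.L - P.lev j) (fun l => P.ind P.q (P.lev j) l - P.one (P.lev j) j l)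

/-- All positions from here on are units. -/
def D₁ : ℕ := (P.L + 1) * P.C

/-- The set of unit positions. -/
def A : Set ℕ :=
  {a | a = 0 ∨ a = P.enc 1 (fun _ => 0) ∨ (∃ j, a = P.rho j) ∨ (∃ n < P.N, a = P.sg n) ∨
    (P.D₁ ≤ a ∧ a ≤ 2 * P.D₁)}

lemma ind_le (q n : ℕ) (j : ι) : P.ind q n j ≤ q := by
  unfold ind; split_ifs <;> omega

lemma one_le (q : ℕ) (i j : ι) : P.one q i j ≤ q := by
  unfold one; split_ifs <;> omega

lemma ind_self (q : ℕ) (j : ι) : P.ind q (P.lev j) j = q := by simp [ind]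

lemma one_self (q : ℕ) (j : ι) : P.one q j j = q := by simp [one]

lemma one_ne (q : ℕ) {i j : ι} (h : j ≠ i) : P.one q i j = 0 := by simp [one, h]

lemma ind_ne (q : ℕ) {n : ℕ} {j : ι} (h : P.lev j ≠ n) : P.ind q n j = 0 := by simp [ind, h]

lemma one_le_ind (j l : ι) : P.one (P.lev j) j l ≤ P.ind P.q (P.lev j) l := by
  unfold one
  split_ifs with h
  · subst h
    rw [ind_self]
    have := P.lev_le l
    unfold q; omega
  · exact Nat.zero_le _

lemma mul_rho (n : ℕ) (j : ι) : n * P.rho j = P.enc n (P.one n j) := by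
  unfold rho enc one
  rw [mul_add, Finset.mul_sum, one_mul]
  congr 1
  refine Finset.sum_congr rfl fun l _ => ?_
  split_ifs <;> ring

lemma b_add (j : ι) : P.b j + P.lev j * P.rho j = P.w (P.lev j) := by
  rw [mul_rho]
  unfold b w
  rw [enc_add]
  have h1 := P.lev_le j
  have h2 : P.L - P.lev j + P.lev j = P.L := by unfold L; omega
  rw [h2]
  congr 1
  funext l
  have := P.one_le_ind j l
  omega

lemma sg_add (n : ℕ) (hn : n < P.N) : P.sg n + (n + 1) * P.enc 1 (fun _ => 0) = P.w n := by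
  unfold sg w
  have h0 : (n + 1) * P.enc 1 (fun _ => 0) = P.enc (n + 1) (fun _ => 0) := by
    unfold enc; simp
  rw [h0, enc_add]
  have h2 : P.L - (n + 1) + (n + 1) = P.L := by unfold L; omega
  rw [h2]
  rfl

lemma w_lt (n : ℕ) : P.w n < P.D₁ := by
  unfold w D₁
  refine P.enc_lt _ _ fun j => ?_
  have := P.ind_le P.q n j
  unfold q at this ⊢
  omega

lemma le_b (j : ι) : (P.L - P.lev j) * P.C ≤ P.b j := P.le_enc _ _

lemma b_lt (j : ι) : P.b j < P.D₁ := by
  have := P.b_add j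
  have := P.w_lt (P.lev j)
  omega

lemma le_sg (n : ℕ) : (P.L - (n + 1)) * P.C ≤ P.sg n := P.le_enc _ _

lemma sg_lt (n : ℕ) (hn : n < P.N) : P.sg n < P.D₁ := by
  have := P.sg_add n hn
  have := P.w_lt n
  omega

lemma zero_mem : 0 ∈ P.A := Or.inl rfl

lemma D₁_pos : 1 ≤ P.D₁ := by
  unfold D₁
  exact Nat.mul_pos (Nat.succ_pos _) P.C_pos

lemma D_mem : 2 * P.D₁ ∈ P.A := by
  refine Or.inr (Or.inr (Or.inr (Or.inr ⟨by omega, le_rfl⟩)))

lemma tau_mem : P.enc 1 (fun _ => 0) ∈ P.A := Or.inr (Or.inl rfl)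

lemma rho_mem (j : ι) : P.rho j ∈ P.A := Or.inr (Or.inr (Or.inl ⟨j, rfl⟩))

lemma sg_mem (n : ℕ) (hn : n < P.N) : P.sg n ∈ P.A := Or.inr (Or.inr (Or.inr (Or.inl ⟨n, hn, rfl⟩)))

lemma enc_le_D₁ {s : ℕ} {u : ι → ℕ} (hs : s ≤ P.L) (hu : ∀ j, u j < 8 * P.N + 16) :
    P.enc s u < P.D₁ :=
  (P.enc_lt s u hu).trans_le (Nat.mul_le_mul_right _ (by omega))

lemma A_le : ∀ a ∈ P.A, a ≤ 2 * P.D₁ := by
  have hD := P.D₁_pos
  rintro a (rfl | rfl | ⟨j, rfl⟩ | ⟨n, hn, rfl⟩ | ⟨_, h⟩)
  · omega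
  · have := P.enc_le_D₁ (s := 1) (u := fun _ => 0) (by unfold L; omega) (fun j => by omega)
    omega
  · have := P.enc_le_D₁ (s := 1) (u := P.one 1 j) (by unfold L; omega)
      (fun l => by have := P.one_le 1 j l; omega)
    unfold rho
    omega
  · have := P.sg_lt n hn
    omega
  · exact h

lemma bb_mem (i j : ι) : P.b i + P.b j ∈ P.A := by
  refine Or.inr (Or.inr (Or.inr (Or.inr ⟨?_, ?_⟩)))
  · have h1 := P.le_b i
    have h2 := P.le_b j
    have h3 : P.D₁ ≤ (P.L - P.lev i) * P.C + (P.L - P.lev j) * P.C := by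
      rw [← add_mul]
      unfold D₁
      refine Nat.mul_le_mul_right _ ?_
      have := P.lev_le i
      have := P.lev_le j
      unfold L
      omega
    omega
  · have := P.b_lt i
    have := P.b_lt j
    omega

/-- Everything from `D₁` on is a unit position at all times. -/
lemma big_mem (s : ℕ) : ∀ w, P.D₁ ≤ w → w ≤ (s + 1) * (2 * P.D₁) → w ∈ iter P.A (s + 1) := by
  have hD := P.D₁_pos
  have hA : ∀ w, P.D₁ ≤ w → w ≤ 2 * P.D₁ → w ∈ P.A := fun w h1 h2 =>
    Or.inr (Or.inr (Or.inr (Or.inr ⟨h1, h2⟩)))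
  induction s with
  | zero =>
    intro w h1 h2
    rw [iter_one]
    exact hA w h1 (by omega)
  | succ s ih =>
    intro w h1 h2
    by_cases h3 : w ≤ 2 * P.D₁
    · have : w ∈ iter P.A 1 := by rw [iter_one]; exact hA w h1 h3
      exact iter_mono' P.zero_mem (by omega) this
    · by_cases h4 : w ≤ 3 * P.D₁
      · have h5 : w - P.D₁ ∈ iter P.A 1 := by rw [iter_one]; exact hA _ (by omega) (by omega)
        have h6 : w - P.D₁ + P.D₁ ∈ iter P.A 2 := add_mem_iter h5 (hA _ le_rfl (by omega))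
        rw [Nat.sub_add_cancel h1] at h6
        exact iter_mono' P.zero_mem (by omega) h6
      · have h5 : w - 2 * P.D₁ ∈ iter P.A (s + 1) := by
          refine ih _ (by omega) ?_
          have : (s + 1 + 1) * (2 * P.D₁) = (s + 1) * (2 * P.D₁) + 2 * P.D₁ := by ring
          omega
        have h6 := add_mem_iter h5 P.D_mem
        rwa [Nat.sub_add_cancel (by omega)] at h6

/-- Sums of at most `s` small steps. -/
def Small (s : ℕ) (u : ℕ) : Prop := ∃ k ≤ s, ∃ f : ι → ℕ, ∑ j, f j ≤ k ∧ u = P.enc k f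

lemma Small.mono {s t : ℕ} (h : s ≤ t) {u : ℕ} (hu : P.Small s u) : P.Small t u := by
  obtain ⟨k, hk, r⟩ := hu
  exact ⟨k, hk.trans h, r⟩

lemma Small.add {s t u v : ℕ} (hu : P.Small s u) (hv : P.Small t v) :
    P.Small (s + t) (u + v) := by
  obtain ⟨k, hk, f, hf, rfl⟩ := hu
  obtain ⟨k', hk', f', hf', rfl⟩ := hv
  refine ⟨k + k', by omega, fun j => f j + f' j, ?_, P.enc_add _ _ _ _⟩
  rw [Finset.sum_add_distrib]; omega

lemma sum_one (q : ℕ) (i : ι) : ∑ j, P.one q i j = q := by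
  classical
  unfold one
  rw [Finset.sum_ite_eq']
  simp

/-- The elements of `A` below `D₁`. -/
lemma A_small {a : ℕ} (ha : a ∈ P.A) (h : a < P.D₁) :
    P.Small 1 a ∨ ∃ n < P.N, a = P.sg n := by
  rcases ha with rfl | rfl | ⟨j, rfl⟩ | ⟨n, hn, rfl⟩ | ⟨h1, _⟩
  · left; exact ⟨0, by omega, fun _ => 0, by simp, by simp [enc]⟩
  · left; exact ⟨1, le_rfl, fun _ => 0, by simp, rfl⟩
  · left; exact ⟨1, le_rfl, P.one 1 j, by rw [sum_one], rfl⟩
  · right; exact ⟨n, hn, rfl⟩
  · omega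

/-- Structure of the iterated sumset below `D₁`. -/
lemma iter_small (s : ℕ) : ∀ w, w ∈ iter P.A s → w < P.D₁ →
    P.Small s w ∨ ∃ n < P.N, ∃ u, ∃ t, t + 1 ≤ s ∧ P.Small t u ∧ w = P.sg n + u := by
  induction s with
  | zero =>
    intro w hw _
    have : w = 0 := hw
    subst this
    left; exact ⟨0, le_rfl, fun _ => 0, by simp, by simp [enc]⟩
  | succ s ih =>
    rintro w ⟨u, hu, a, ha, rfl⟩ hlt
    rcases ih u hu (by omega) with h | ⟨n, hn, u', t, ht, hu', rfl⟩
    · rcases P.A_small ha (by omega) with h' | ⟨n, hn, rfl⟩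
      · left; exact Small.add P h h'
      · right; exact ⟨n, hn, u, s, le_rfl, h, by ring⟩
    · rcases P.A_small ha (by omega) with h' | ⟨n', hn', rfl⟩
      · right
        exact ⟨n, hn, u' + a, t + 1, by omega, Small.add P hu' h', by ring⟩
      · exfalso
        have h1 := P.le_sg n
        have h2 := P.le_sg n'
        have h3 : P.D₁ ≤ (P.L - (n + 1)) * P.C + (P.L - (n' + 1)) * P.C := by
          rw [← add_mul]
          unfold D₁
          refine Nat.mul_le_mul_right _ ?_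
          unfold L
          omega
        omega

lemma le_sum_apply (f : ι → ℕ) (i : ι) : f i ≤ ∑ j, f j :=
  Finset.single_le_sum (fun _ _ => Nat.zero_le _) (Finset.mem_univ i)

/-- The targets are not covered too early. -/
lemma w_notMem {n : ℕ} (hn : n ≤ P.N) {t : ℕ} (h : P.w n ∈ iter P.A t) :
    n < P.N ∧ n + 2 ≤ t := by
  have hwn := P.w_lt n
  rcases P.iter_small t _ h hwn with ⟨k, hk, f, hf, he⟩ | ⟨n', hn', u, s, hs, ⟨k, hk, f, hf, rfl⟩, he⟩
  · exfalso
    have hkL : k < P.L + 1 := P.size_lt_of (u := f) (by rw [← he]; exact hwn)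
    have hL : P.L = 2 * P.N + 4 := rfl
    have hq : P.q = 2 * P.N + 5 := rfl
    have hfb : ∀ j, f j < 8 * P.N + 16 := fun j => by
      have := le_sum_apply f j; omega
    have hib : ∀ j, P.ind P.q n j < 8 * P.N + 16 := fun j => by
      have := P.ind_le P.q n j; omega
    obtain ⟨h1, h2⟩ := P.enc_inj hib hfb he
    obtain ⟨j, hj⟩ := P.lev_surj n hn
    have h3 := le_sum_apply f j
    rw [← h2, ← hj, ind_self] at h3
    rw [← hj] at h2
    have h4 : ∑ j, f j ≤ k := hf
    rw [← h2] at h4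
    omega
  · have hL : P.L = 2 * P.N + 4 := rfl
    have hq : P.q = 2 * P.N + 5 := rfl
    unfold sg at he
    rw [enc_add] at he
    have hkL : P.L - (n' + 1) + k < P.L + 1 := P.size_lt_of (u := fun j => P.ind P.q n' j + f j)
      (by rw [← he]; exact hwn)
    have hfb : ∀ j, P.ind P.q n' j + f j < 8 * P.N + 16 := fun j => by
      have := le_sum_apply f j
      have := P.ind_le P.q n' j
      omega
    have hib : ∀ j, P.ind P.q n j < 8 * P.N + 16 := fun j => by
      have := P.ind_le P.q n j; omega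
    obtain ⟨h1, h2⟩ := P.enc_inj hib hfb he
    obtain ⟨j, hj⟩ := P.lev_surj n' (by omega)
    have h3 := congrFun h2 j
    by_cases hnn : n = n'
    · subst hnn
      exact ⟨hn', by omega⟩
    · exfalso
      rw [P.ind_ne _ (by rw [hj]; exact Ne.symm hnn)] at h3
      rw [← hj, ind_self] at h3
      omega

lemma w_mem {n : ℕ} (hn : n < P.N) : P.w n ∈ iter P.A (n + 2) := by
  rw [← P.sg_add n hn]
  have h1 : (n + 1) * P.enc 1 (fun _ => 0) ∈ iter P.A (n + 1) := mul_mem_iter P.tau_mem _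
  have h2 := add_mem_iter h1 (P.sg_mem n hn)
  rwa [add_comm ((n + 1) * P.enc 1 (fun _ => 0)) (P.sg n)] at h2

lemma mem_Zs_w {j : ι} {s : ℕ} (h : P.lev j ≤ s) : j ∈ Zs P.A P.b s (P.w (P.lev j)) := by
  refine ⟨P.lev j * P.rho j, ?_, (P.b_add j).symm⟩
  exact iter_mono' P.zero_mem h (mul_mem_iter (P.rho_mem j) _)

/-- Structure of exposures. -/
lemma exposure {j : ι} {s w : ℕ} (hj : j ∈ Zs P.A P.b s w) (hw : w < P.D₁) :
    ∃ k ≤ s, ∃ f : ι → ℕ, ∑ l, f l ≤ k ∧ k ≤ P.lev j ∧ w = P.b j + P.enc k f := by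
  obtain ⟨u, hu, rfl⟩ := hj
  have hb := P.le_b j
  have hL : P.L = 2 * P.N + 4 := rfl
  have hq : P.q = 2 * P.N + 5 := rfl
  have hlev := P.lev_le j
  rcases P.iter_small s u hu (by omega) with ⟨k, hk, f, hf, rfl⟩ | ⟨n, hn, u', t, ht, _, rfl⟩
  · refine ⟨k, hk, f, hf, ?_, rfl⟩
    have h1 : P.b j + P.enc k f = P.enc (P.L - P.lev j + k)
        (fun l => (P.ind P.q (P.lev j) l - P.one (P.lev j) j l) + f l) := by
      unfold b; rw [enc_add]
    rw [h1] at hw
    have := P.size_lt_of hw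
    omega
  · exfalso
    have h2 := P.le_sg n
    have h3 : P.D₁ ≤ (P.L - P.lev j) * P.C + (P.L - (n + 1)) * P.C := by
      rw [← add_mul]
      unfold D₁
      refine Nat.mul_le_mul_right _ ?_
      omega
    omega

lemma double_exposure {i j : ι} (hij : i ≠ j) {s w : ℕ} (hi : i ∈ Zs P.A P.b s w)
    (hj : j ∈ Zs P.A P.b s w) (hw : w < P.D₁) :
    P.lev i = P.lev j ∧ w = P.w (P.lev i) ∧ P.lev i ≤ s := by
  obtain ⟨k, hk, f, hf, hkl, h1⟩ := P.exposure hi hw
  obtain ⟨k', hk', f', hf', hkl', h2⟩ := P.exposure hj hw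
  have hL : P.L = 2 * P.N + 4 := rfl
  have hq : P.q = 2 * P.N + 5 := rfl
  have hli := P.lev_le i
  have hlj := P.lev_le j
  have e1 := P.b_add i
  have e2 := P.b_add j
  have e3 : P.w (P.lev i) + P.enc k f + P.lev j * P.rho j =
      P.w (P.lev j) + P.enc k' f' + P.lev i * P.rho i := by omega
  rw [mul_rho, mul_rho] at e3
  unfold Data.w at e3
  rw [enc_add, enc_add, enc_add, enc_add] at e3
  have hb1 : ∀ l, P.ind P.q (P.lev i) l + f l + P.one (P.lev j) j l < 8 * P.N + 16 := fun l => by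
    have := P.ind_le P.q (P.lev i) l
    have := le_sum_apply f l
    have := P.one_le (P.lev j) j l
    omega
  have hb2 : ∀ l, P.ind P.q (P.lev j) l + f' l + P.one (P.lev i) i l < 8 * P.N + 16 := fun l => by
    have := P.ind_le P.q (P.lev j) l
    have := le_sum_apply f' l
    have := P.one_le (P.lev i) i l
    omega
  obtain ⟨e4, e5⟩ := P.enc_inj hb1 hb2 e3
  have e6 := congrFun e5 i
  rw [ind_self, one_self, P.one_ne _ hij] at e6
  have hfi := le_sum_apply f i
  have hfi' := le_sum_apply f' i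
  by_cases hl : P.lev i = P.lev j
  · have e7 : P.ind P.q (P.lev j) i = P.q := by rw [← hl, ind_self]
    rw [e7] at e6
    have hk1 : k = P.lev i := by omega
    have hf1 : f = P.one (P.lev i) i := by
      funext l
      by_cases hli' : l = i
      · subst hli'; rw [one_self]; omega
      · rw [P.one_ne _ hli']
        have h8 : f l + f i ≤ ∑ x, f x := by
          have := Finset.add_le_sum (f := f) (s := Finset.univ) (fun _ _ => Nat.zero_le _)
            (Finset.mem_univ l) (Finset.mem_univ i) hli'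
          exact this
        omega
    refine ⟨hl, ?_, by omega⟩
    rw [h1, hk1, hf1, ← mul_rho, b_add]
  · exfalso
    rw [P.ind_ne _ hl] at e6
    omega

open Classical in
/-- The finset version of `Zs`. -/
noncomputable def Z (s w : ℕ) : Finset ι := Finset.univ.filter (fun j => j ∈ Zs P.A P.b s w)

lemma mem_Z {s w : ℕ} {j : ι} : j ∈ P.Z s w ↔ j ∈ Zs P.A P.b s w := by simp [Z]

lemma Z_coe (s : ℕ) : (fun w => ((P.Z s w : Finset ι) : Set ι)) = Zs P.A P.b s := by
  funext w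
  ext j
  simp [Z]

open Classical in
/-- The indices of a level. -/
noncomputable def Lv (n : ℕ) : Finset ι := Finset.univ.filter (fun j => P.lev j = n)

lemma mem_Lv {n : ℕ} {j : ι} : j ∈ P.Lv n ↔ P.lev j = n := by simp [Lv]

lemma Lv_pos {n : ℕ} (hn : n ≤ P.N) : 1 ≤ (P.Lv n).card := by
  obtain ⟨j, hj⟩ := P.lev_surj n hn
  exact Finset.card_pos.2 ⟨j, P.mem_Lv.2 hj⟩

theorem card_Z_le (s w : ℕ) (hw : w ≤ (s + 1) * (2 * P.D₁)) (hA : w ∉ iter P.A (s + 1)) :
    (P.Z s w).card ≤ (P.Lv (min s P.N)).card := by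
  have hlt : w < P.D₁ := by
    by_contra h
    exact hA (P.big_mem s w (not_lt.1 h) hw)
  by_cases h1 : (P.Z s w).card ≤ 1
  · exact h1.trans (P.Lv_pos (min_le_right _ _))
  · obtain ⟨i, hi, j, hj, hij⟩ := Finset.one_lt_card.1 (not_le.1 h1)
    rw [mem_Z] at hi hj
    obtain ⟨hl, hwe, hls⟩ := P.double_exposure hij hi hj hlt
    have hmin : P.lev i = min s P.N := by
      have h2 := P.lev_le i
      by_cases hN : P.lev i < P.N
      · have h3 := P.w_mem hN
        rw [← hwe] at h3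
        have h4 : ¬ (P.lev i + 2 ≤ s + 1) := fun h => hA (iter_mono' P.zero_mem h h3)
        omega
      · omega
    refine Finset.card_le_card fun l hl' => ?_
    rw [mem_Lv, ← hmin]
    rw [mem_Z] at hl'
    by_cases hli : l = i
    · rw [hli]
    · exact (P.double_exposure hli hl' hi hlt).1

theorem card_Z_eq (s : ℕ) : ∃ w, w ≤ (s + 1) * (2 * P.D₁) ∧ w ∉ iter P.A (s + 1) ∧
    (P.Z s w).card = (P.Lv (min s P.N)).card := by
  have hw : P.w (min s P.N) ≤ (s + 1) * (2 * P.D₁) := by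
    have h1 := P.w_lt (min s P.N)
    have h2 : 1 * (2 * P.D₁) ≤ (s + 1) * (2 * P.D₁) := Nat.mul_le_mul_right _ (by omega)
    omega
  have hA : P.w (min s P.N) ∉ iter P.A (s + 1) := by
    intro h
    have := P.w_notMem (min_le_right _ _) h
    omega
  refine ⟨P.w (min s P.N), hw, hA, le_antisymm (P.card_Z_le s _ hw hA) ?_⟩
  refine Finset.card_le_card fun l hl => ?_
  rw [mem_Lv] at hl
  rw [mem_Z, ← hl]
  refine P.mem_Zs_w ?_
  omega

end Data

end Pool.Agent.Lib.MP_0c67ff_ag
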