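import Mathlib
import Pool.Agent.Lib.MP_0c67ff_ag.Numbers

set_option autoImplicit false

/-!
Assembly: every eventually constant function with values at least two is the projective dimension
function of the powers of a monomial ideal.
-/

open CategoryTheory MvPolynomial

namespace Pool.Agent.Lib.MP_0c67ff_ag

/-- The projective dimensions of the powers, in terms of the numerical data. -/
theorem PD_pow {σ ι : Type} [Fintype ι] (V : VarSetup σ ι) (P : Data ι) (k : Type) [Field k]
    (s n : ℕ) :
    PD (MvPolynomial σ k) ↥((mI k (V.W P.A P.b (2 * P.D₁) 0)) ^ (s + 1)) n ↔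
      (P.Lv (min s P.N)).card + 2 ≤ n := by
  have hD := P.D₁_pos
  rw [V.mI_W_pow k P.zero_mem P.D_mem P.A_le P.bb_mem (by omega) s]
  unfold VarSetup.W
  rw [← P.Z_coe s]
  have hle : ∀ w ≤ (s + 1) * (2 * P.D₁), w ∉ iter P.A (s + 1) →
      (P.Z s w).card ≤ (P.Lv (min s P.N)).card := P.card_Z_le s
  obtain ⟨w₀, hw₀, hw₀A, hcard⟩ := P.card_Z_eq s
  constructor
  · intro h
    by_contra hn
    exact V.not_PD_U k _ (P.Z s) hle hw₀ hw₀A hcard (h.mono (by omega))
  · intro h
    exact (V.PD_U k _ (P.Z s) hle).mono h

/-- Existence of the numerical data with prescribed level sizes. -/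
theorem exists_data (N : ℕ) (m : ℕ → ℕ) (hm : ∀ n ≤ N, 1 ≤ m n) :
    ∃ (ι : Type) (_ : Fintype ι) (P : Data ι), P.N = N ∧ ∀ n ≤ N, (P.Lv n).card = m n := by
  classical
  let ι : Type := Σ n : Fin (N + 1), Fin (m n)
  obtain ⟨c, C, hC, h1, h2⟩ := exists_code ι (8 * N + 16) (by omega)
  let P : Data ι :=
    { N := N
      lev := fun j => j.1
      lev_le := fun j => by have := j.1.2; omega
      lev_surj := fun n hn => ⟨⟨⟨n, by omega⟩, ⟨0, hm n hn⟩⟩, rfl⟩
      c := c
      C := C
      C_pos := hC
      lt_C := h1
      inj := h2 }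
  refine ⟨ι, inferInstance, P, rfl, fun n hn => ?_⟩
  have hn' : n < N + 1 := by omega
  let f : Fin (m n) → ι := fun i => ⟨⟨n, hn'⟩, i⟩
  have hf : Function.Injective f := by
    intro i i' h
    have := (Sigma.mk.inj_iff.1 h).2
    exact eq_of_heq this
  have himg : P.Lv n = Finset.univ.image f := by
    ext j
    rw [Data.mem_Lv, Finset.mem_image]
    constructor
    · intro h
      obtain ⟨⟨a, ha⟩, i⟩ := j
      have h' : a = n := h
      subst h'
      exact ⟨i, Finset.mem_univ _, rfl⟩
    · rintro ⟨i, _, rfl⟩
      rfl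
  rw [himg, Finset.card_image_of_injective _ hf, Finset.card_univ, Fintype.card_fin]

/-- A variable setup over `Fin n`. -/
theorem exists_setup (ι : Type) [Fintype ι] : ∃ n : ℕ, Nonempty (VarSetup (Fin n) ι) := by
  classical
  let e := Fintype.equivFin (Option (Option ι))
  refine ⟨Fintype.card (Option (Option ι)), ⟨?_⟩⟩
  exact
    { x := e none
      y := e (some none)
      z := fun j => e (some (some j))
      hxy := fun h => by simpa using e.injective h
      hzx := fun j h => by simpa using e.injective h
      hzy := fun j h => by simpa using e.injective h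
      hz := fun i j h => by simpa using e.injective h }

end Pool.Agent.Lib.MP_0c67ff_ag
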